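import Mathlib
import Pool.Agent.N546.PN.Stm

/-!
# Good points modulo a large prime (project PN of helper546, piece LSOL)
-/

set_option autoImplicit false

open Pool.Agent.N546.PN Polynomial Finset

namespace Pool.Agent.N531.PN546

theorem bval_cast {e : ℕ} (K : Type) [CommRing K] (c : Fin (e + 2) → ℤ) (x y : ℤ) :
    ((bval c x y : ℤ) : K) = bval c (x : K) (y : K) := by
  unfold bval
  push_cast
  rfl

theorem norm_one (p : ℕ) [Fact p.Prime] (z : ℤ) (hz : ¬ (p : ℤ) ∣ z) : ‖(z : ℚ_[p])‖ = 1 := by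
  refine le_antisymm (Padic.norm_int_le_one z) ?_
  by_contra hc
  push Not at hc
  exact hz (Padic.norm_intCast_lt_one_iff.1 hc)

/-- the dehomogenised form modulo `p` -/
noncomputable def g (p : ℕ) {e : ℕ} (c : Fin (e + 2) → ℤ) : (ZMod p)[X] :=
  ∑ j : Fin (e + 2), C ((c j : ℤ) : ZMod p) * X ^ (j : ℕ)

theorem g_coeff (p : ℕ) {e : ℕ} (c : Fin (e + 2) → ℤ) (j : Fin (e + 2)) :
    (g p c).coeff (j : ℕ) = ((c j : ℤ) : ZMod p) := by
  unfold g
  rw [finsetSum_coeff, Finset.sum_eq_single j]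
  · simp
  · intro i _ hi
    rw [coeff_C_mul_X_pow, if_neg]
    exact fun h => hi (Fin.ext h.symm)
  · intro h
    exact absurd (Finset.mem_univ j) h

theorem g_ne (p : ℕ) {e : ℕ} (c : Fin (e + 2) → ℤ) (h : ∃ j, ¬ (p : ℤ) ∣ c j) : g p c ≠ 0 := by
  obtain ⟨j, hj⟩ := h
  intro h0
  apply hj
  rw [← ZMod.intCast_zmod_eq_zero_iff_dvd, ← g_coeff p c j, h0, coeff_zero]

theorem g_deg (p : ℕ) {e : ℕ} (c : Fin (e + 2) → ℤ) : (g p c).natDegree ≤ e + 1 := by
  unfold g
  refine natDegree_sum_le_of_forall_le _ _ fun j _ => ?_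
  refine (natDegree_C_mul_X_pow_le _ _).trans ?_
  have := j.2
  omega

theorem g_deg' (p : ℕ) {e : ℕ} (c : Fin (e + 2) → ℤ) (h : (p : ℤ) ∣ c (Fin.last (e + 1))) :
    (g p c).natDegree ≤ e := by
  rw [natDegree_le_iff_coeff_eq_zero]
  intro N hN
  rcases Nat.lt_or_ge (e + 1) N with h1 | h1
  · exact coeff_eq_zero_of_natDegree_lt (lt_of_le_of_lt (g_deg p c) h1)
  · have h2 : N = ((Fin.last (e + 1) : Fin (e + 2)) : ℕ) := by
      rw [Fin.val_last]
      omega
    rw [h2, g_coeff, ZMod.intCast_zmod_eq_zero_iff_dvd]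
    exact h

theorem g_eval (p : ℕ) {e : ℕ} (c : Fin (e + 2) → ℤ) (t : ZMod p) :
    (g p c).eval t = bval c (1 : ZMod p) t := by
  unfold g bval
  rw [eval_finsetSum]
  refine Finset.sum_congr rfl fun j _ => ?_
  simp

theorem bval_inf {e : ℕ} (c : Fin (e + 2) → ℤ) :
    bval c (0 : ℤ) 1 = c (Fin.last (e + 1)) := by
  unfold bval
  rw [Finset.sum_eq_single (Fin.last (e + 1))]
  · simp
  · intro j _ hj
    have h1 : (j : ℕ) ≠ e + 1 := fun h => hj (Fin.ext (by rw [Fin.val_last]; exact h))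
    have h2 : e + 1 - (j : ℕ) ≠ 0 := by
      have := j.2
      omega
    rw [zero_pow h2]
    ring
  · intro h
    exact absurd (Finset.mem_univ _) h

/-- **Good points over `ℚ_p` for binary forms which do not vanish modulo a large `p`.** -/
theorem lsol_ : S_LSOL := by
  classical
  intro ι _ _ e T p _ hp2 hsum c hc
  suffices h : ∃ x y : ℤ, ∀ k, ¬ (p : ℤ) ∣ bval (c k) x y by
    obtain ⟨x, y, h⟩ := h
    have h1 : ∀ k, ‖bval (c k) (x : ℚ_[p]) (y : ℚ_[p])‖ = 1 := by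
      intro k
      rw [← bval_cast]
      exact norm_one p _ (h k)
    refine ⟨x, y, fun k => ?_, T.un p hp2 _ h1⟩
    intro h0
    have := h1 k
    rw [h0, norm_zero] at this
    exact zero_ne_one this
  by_cases hlast : ∃ k₀, (p : ℤ) ∣ c k₀ (Fin.last (e k₀ + 1))
  · obtain ⟨k₀, hk₀⟩ := hlast
    have hP : ∏ k, g p (c k) ≠ 0 := Finset.prod_ne_zero_iff.2 fun k _ => g_ne p (c k) (hc k)
    have hdeg : (∏ k, g p (c k)).natDegree < p := by
      refine lt_of_le_of_lt (natDegree_prod_le _ _) ?_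
      refine lt_of_lt_of_le ?_ hsum
      exact Finset.sum_lt_sum (fun k _ => g_deg p (c k))
        ⟨k₀, Finset.mem_univ _, Nat.lt_succ_of_le (g_deg' p (c k₀) hk₀)⟩
    obtain ⟨t, ht⟩ := exists_eval_ne_zero_of_natDegree_lt_card (∏ k, g p (c k)) hP (by
      rw [Cardinal.mk_fintype, ZMod.card]
      exact_mod_cast hdeg)
    refine ⟨1, (t.val : ℤ), fun k => ?_⟩
    rw [← ZMod.intCast_zmod_eq_zero_iff_dvd, bval_cast]
    push_cast
    rw [ZMod.natCast_zmod_val, ← g_eval]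
    rw [eval_prod] at ht
    exact (Finset.prod_ne_zero_iff.1 ht) k (Finset.mem_univ _)
  · push Not at hlast
    refine ⟨0, 1, fun k => ?_⟩
    rw [bval_inf]
    exact hlast k

end Pool.Agent.N531.PN546
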